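import Pool.Agent.L0h17.IT.Main
import Pool.Agent.L0h17.KU.Ci

/-!
# Iitaka's inequality and covering families

Let `W` be a variety over a field `k` of characteristic zero which is covered by a family of varieties
`D_t`, `t` in `T` (the members may be singular in `W`, and any number of them may pass through a general
point). Let `D` be the generic member, a variety over the function field `Λ` of `T`. We show that a
fibration of `W` cannot violate Iitaka's inequality unless a fibration of `D` does, provided that
`κ(W)` has the maximal value `dim W - dim D + κ(D)` which is allowed by the easy addition.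

**(1) Easy addition for fibrations.** For every dominant rational map `W ⇢ B` with generic fibre `F` and
`κ(B) ≥ 0`, `κ(F) ≥ 0` there is a fibration `D ⇢ B'` over `Λ` with generic fibre `F'` and
`κ(B) + κ(F) ≤ (dim W - dim D) + κ(B') + κ(F')`.

**(2) Transfer.** If Iitaka's inequality holds for the fibrations of `D` and
`κ(W) ≥ (dim W - dim D) + κ(D)` then it holds for the fibrations of `W`.

**(3) Images of products.** Let `Y × S ⇢ W` be any generically finite dominant rational map of complex
varieties, and let Iitaka's inequality hold for the fibrations of `S` over the function field of `Y`.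
Then `κ(B) + κ(F) ≤ dim Y + κ(S)` for all dominant rational maps `W ⇢ B` with generic fibre `F`; if
`κ(S) = -∞` then `κ(B) = -∞` or `κ(F) = -∞`.

Nothing is assumed on the map `W ⇢ B`, its fibres, its variation and its base; it need not be related to
the family. For complex varieties `S` of dimension at most `6` the assumption in (3) is known by the
Lefschetz principle (Birkar); this is not part of the Lean theorem. The application of (2) to varieties
of any dimension which are covered by copies of a variety is `ImagesOfProducts`.

## Proof

(1): Let `E` be the function field of `B`, `L` that of `W` and `K` that of `D` (over `Λ`), and let `E'`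
be the algebraic closure of `Λ E` in `K`. The restriction of a regular pluricanonical form `η` of `B` to the
general member of the covering family of `B` with the generic member `E' / Λ` is constructed as follows:
a transcendence basis of `E' / Λ` is taken from `E`, and `η` is evaluated on the dual vector fields over
`Λ` and on derivations which move the parameters. Since a prime divisor over `Λ` is defined over a
finitely generated field, these can be chosen such that they are regular on the functions of `B` which
are regular at the divisor; so one gets a regular pluricanonical form on `E' / Λ`. If there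
are `κ(B)` algebraically independent ratios then at least `κ(B) - (dim B - dim B')` of them remain
algebraically independent over `Λ`. The same argument over the ground field `E` is applied to the
generic fibre `F`, which is covered by a family with the generic member `K / E'`. Finally
`dim B + dim F = dim W` and `dim B' + dim F' = dim D`.

(3): By (1) and the assumption `κ(B) + κ(F) ≤ dim Y + κ(S_Λ)`, and one has to show `κ(S_Λ) ≤ κ(S)` for
`Λ = ℂ(Y)`, which is not algebraically closed. The value of a regular pluricanonical form of `S_Λ` on a
frame has no poles along the prime divisors over `Y × S` which dominate both factors: these are prime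
divisors of `S_Λ`. So by the theorem on such functions in `MP_e23cd6_ag.ProductTransfer` it is a sum
of products of functions on `Y` and on `S`. The components of the form are regular on `S`, since every
prime divisor over `S` has a Gauss extension, which is a prime divisor over `S_Λ`.
-/

set_option autoImplicit false
set_option linter.overlappingInstances false

open FF Pool.Agent.W602.GT Pool.Agent.N162.GP

namespace Pool.Agent.Results.MP_f72953_ag.CoveringFamilies

/-- `κ(X) ≥ h` for the varieties `X` over `k` of dimension `n` with function field `L`: for some `m ≥ 1`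
there are `h + 1` `m`-canonical forms, regular along all prime divisors over `X`, whose ratios are `h`
algebraically independent functions. -/
def KodairaGe (k L : Type) [Field k] [Field L] [Algebra k L] (n h : ℕ) : Prop :=
  ∃ m : ℕ, 1 ≤ m ∧ ∃ Φ : Fin (h + 1) → (Fin n → Derivation k L L) → L,
    (∀ j, IsPluri m (Φ j) ∧ ∀ P : Place k L, Divisorial n P → RegAt P (Φ j)) ∧
    ∃ D, Φ 0 D ≠ 0 ∧ AlgebraicIndependent k fun j : Fin h => Φ j.succ D / Φ 0 D

/-- Iitaka's inequality holds for all fibrations `X ⇢ B` of the variety `X` over `k` of dimension `n`
with function field `L`: if `E` is the function field of `B`, algebraically closed in `L`, so that `L`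
over `E` is the function field of the generic fibre `F`, then `κ(B) ≥ p` and `κ(F) ≥ q` imply
`κ(X) ≥ p + q`. -/
def Iitaka (k L : Type) [Field k] [Field L] [Algebra k L] (n : ℕ) : Prop :=
  ∀ (E : IntermediateField k L) (d f p q : ℕ), (∀ x : L, IsAlgebraic E x → x ∈ E) →
    Algebra.trdeg k E = d → Algebra.trdeg E L = f → KodairaGe k E d p → KodairaGe E L f q →
      KodairaGe k L n (p + q)

/-- The variety `W` over `k`, of dimension `n`, with function field `L`, is covered by a family with
a parameter space of dimension `c` with function field `Λ`, and with members of dimension `e`; the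
function field of the generic member `D` is `K` over `Λ`, and its map to `W` is generically finite onto its
image (`K` is algebraic over the compositum of `Λ` and `L`). -/
structure Covering (k L Λ K : Type) [Field k] [Field L] [Field Λ] [Field K] [Algebra k L]
    [Algebra k Λ] [Algebra Λ K] [Algebra L K] (n c e : ℕ) : Prop where
  dimW : Algebra.trdeg k L = n
  dimT : Algebra.trdeg k Λ = c
  dimD : Algebra.trdeg Λ K = e
  alg : ∀ x : K, IsAlgebraic (IntermediateField.adjoin Λ (Set.range (algebraMap L K))) x

/-- `K` is the function field of `Y × S`, where `E` and `S` are the function fields of the varieties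
`Y` and `S` of dimensions `a ≥ 1` and `b`. -/
structure IsProduct {K : Type} [Field K] [Algebra ℂ K] (E S : IntermediateField ℂ K) (a b : ℕ) :
    Prop where
  pos : 1 ≤ a
  sup : E ⊔ S = ⊤
  dimE : Algebra.trdeg ℂ E = a
  dimS : Algebra.trdeg ℂ S = b
  dimK : Algebra.trdeg ℂ K = (a + b : ℕ)

/-- (1) Let `W` be covered by a family with the generic member `D`, and let `W ⇢ B` be dominant with
generic fibre `F`, `κ(B) ≥ p`, `κ(F) ≥ q`. Then there are a fibration `D ⇢ B'` over `Λ` with generic fibre
`F'` and `p'`, `q'` such that `κ(B') ≥ p'`, `κ(F') ≥ q'` and `p + q ≤ (n - e) + p' + q'`. -/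
def Bound : Prop :=
  ∀ (k L Λ K : Type) [Field k] [CharZero k] [Field L] [Field Λ] [Field K] [Algebra k L]
    [Algebra k Λ] [Algebra k K] [Algebra Λ K] [IsScalarTower k Λ K] [Algebra L K]
    [IsScalarTower k L K] [Algebra.EssFiniteType k L] (n c e : ℕ), Covering k L Λ K n c e →
    ∀ (E : IntermediateField k L) (d f p q : ℕ), Algebra.trdeg k E = d → Algebra.trdeg E L = f →
      KodairaGe k E d p → KodairaGe E L f q →
      ∃ (E' : IntermediateField Λ K) (d' f' p' q' : ℕ), (∀ x : K, IsAlgebraic E' x → x ∈ E') ∧
        Algebra.trdeg Λ E' = d' ∧ Algebra.trdeg E' K = f' ∧ KodairaGe Λ E' d' p' ∧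
        KodairaGe E' K f' q' ∧ p + q + e ≤ n + p' + q'

/-- (2) Let `W` be covered by a family with the generic member `D` such that Iitaka's inequality holds
for the fibrations of `D`, and let `κ(W) ≥ (n - e) + κ(D)`. Then it holds for the fibrations of `W`. -/
def Transfer : Prop :=
  ∀ (k L Λ K : Type) [Field k] [CharZero k] [Field L] [Field Λ] [Field K] [Algebra k L]
    [Algebra k Λ] [Algebra k K] [Algebra Λ K] [IsScalarTower k Λ K] [Algebra L K]
    [IsScalarTower k L K] [Algebra.EssFiniteType k L] (n c e : ℕ), Covering k L Λ K n c e →
    Iitaka Λ K e → (∀ h, KodairaGe Λ K e h → KodairaGe k L n (n - e + h)) → Iitaka k L n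

/-- (3) Let `Y × S ⇢ W` be any dominant generically finite rational map, where Iitaka's inequality holds
for the fibrations of `S` over the function field of `Y`, and let `W ⇢ B` be dominant with generic fibre
`F`, `κ(B) ≥ p`, `κ(F) ≥ q`. Then `κ(S) ≥ p + q - dim Y`, and `κ(S) ≥ 0`. -/
def Products : Prop :=
  ∀ (L K : Type) [Field L] [Field K] [Algebra ℂ L] [Algebra ℂ K] [Algebra L K]
    [IsScalarTower ℂ L K] [FiniteDimensional L K] [Algebra.EssFiniteType ℂ K]
    (E S : IntermediateField ℂ K) (a b : ℕ), IsProduct E S a b → Iitaka E K b →
    ∀ (B : IntermediateField ℂ L) (d f p q : ℕ), Algebra.trdeg ℂ B = d → Algebra.trdeg B L = f →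
      KodairaGe ℂ B d p → KodairaGe B L f q → KodairaGe ℂ S b (p + q - a)

/-- (1) Easy addition for the fibrations of a variety and of the members of a covering family. (2) The
transfer of Iitaka's inequality from the members. (3) Images of products. -/
theorem result : Bound ∧ Transfer ∧ Products := by
  refine ⟨?_, ?_, ?_⟩
  · intro k L Λ K _ _ _ _ _ _ _ _ _ _ _ _ _ n c e h E d f p q hd hf hp hq
    have hess := Pool.Agent.N999.SX.ess_any E
    obtain ⟨E1, d1, f1, p1, q1, h1, h2, h3, h4, h5, h6⟩ :=
      Pool.Agent.L0h17.IT.fam h.dimW h.dimT h.dimD h.alg E hd hf hp hq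
    exact ⟨E1, d1, f1, p1, q1, h1, h2, h3, h5, h6, by omega⟩
  · intro k L Λ K _ _ _ _ _ _ _ _ _ _ _ _ _ n c e h hI hκ E d f p q _ hd hf hp hq
    obtain ⟨g, h1, h2⟩ := Pool.Agent.L0h17.IT.mem_bound h.dimW h.dimT h.dimD h.alg hI E hd hf hp hq
    exact Pool.Agent.L0h17.TR.kod_mono (by omega) (hκ g h2)
  · intro L K _ _ _ _ _ _ _ _ E S a b h hI B d f p q hd hf hp hq
    obtain ⟨g, h1, h2⟩ := Pool.Agent.L0h17.IT.prod_bound h.dimE h.dimS h.dimK
      (by rw [sup_comm]; exact h.sup) hI B hd hf hp hq
    exact Pool.Agent.L0h17.TR.kod_mono (by omega) h2

end Pool.Agent.Results.MP_f72953_ag.CoveringFamilies
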