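import Pool.Agent.L0h17.IT.Main
import Pool.Agent.L0h17.KU.Ci

/-!
# Iitaka's inequality for varieties covered by a family of copies of a variety

Let `Y × S ⇢ W` be a dominant generically finite rational map of complex varieties, `dim Y ≥ 1`, such
that `{y} × S ⇢ W` is birational to its image for general `y`: so `W` is covered by a family of copies of
the variety `S`, with the parameter space `Y`. Let `A` be a linear system on `Y` which imposes
independent conditions on the points of `Y` below a general point of `W`, and let `K_Y - 2 A` be big.

**(1) Families of copies of `S`.** If Iitaka's inequality holds for the fibrations of `S` over the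
function field of `Y`, then it holds for all fibrations with total space `W`.

**(2) Example.** Let `Y` be a smooth complete intersection of dimension `n` with `K_Y = O(m)`. Then the
condition in (1) is that the degree of `Y × S ⇢ W` is less than `(N + 1) (k + 2 - N)` for some `N`, `k`
with `2 k < m`, `7 N + 4 ≤ k` (and two mild conditions on the degrees and the dimension of the
projective space). For `N = 0` this is about `m / 2`, and the bound is quadratic in `m` if the dimension
is fixed.

**(3) Finite images (the case where `S` is a point, for all varieties `V` in the place of `Y`).** Let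
`V ⇢ W` be a generically finite dominant rational map, `A` a linear system on `V` which imposes
independent conditions on the points of its general fibre, and let `K_V - (2 + 1 / M) A` be effective
for some `M`. If Iitaka's inequality holds for the fibrations of `V` then it holds for the fibrations
of `W`.

By the Lefschetz principle the assumption on `S` is known for `dim S ≤ 6` (Birkar); this is not part of
the Lean theorem. So in (1) and (2) Q1 is settled for all total spaces `W` of any dimension which are
covered by such a family of copies of any variety `S` of dimension at most `6`, and more generally it is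
reduced to `S`. Nothing is assumed on the fibration `W ⇢ B`, its fibres, its variation and its base; it
need not be related to the family, and there are no assumptions on minimal models or abundance.

## Proof

(1), (2): the equality `κ(W) = dim Y + κ(S)` is in `MP_e23cd6_ag.ProductTransfer`, and with it the
transfer for covering families in `CoveringFamilies` gives the inequality. (3): the lower bound
`κ(W) ≥ κ(V)` is in `MP_e23cd6_ag.MultivaluedFibrations`, and the generic member of the covering family
is `V`.
-/

set_option autoImplicit false
set_option linter.overlappingInstances false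

open FF Pool.Agent.W602.GT Pool.Agent.N162.GP

namespace Pool.Agent.Results.MP_f72953_ag.ImagesOfProducts

/-- `κ(X) ≥ h` for the varieties `X` over `k` of dimension `n` with function field `L`: for some `m ≥ 1`
there are `h + 1` `m`-canonical forms, regular along all prime divisors over `X`, whose ratios are `h`
algebraically independent functions. -/
def KodairaGe (k L : Type) [Field k] [Field L] [Algebra k L] (n h : ℕ) : Prop :=
  ∃ m : ℕ, 1 ≤ m ∧ ∃ Φ : Fin (h + 1) → (Fin n → Derivation k L L) → L,
    (∀ j, IsPluri m (Φ j) ∧ ∀ P : Place k L, Divisorial n P → RegAt P (Φ j)) ∧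
    ∃ D, Φ 0 D ≠ 0 ∧ AlgebraicIndependent k fun j : Fin h => Φ j.succ D / Φ 0 D

/-- Iitaka's inequality holds for all fibrations `X ⇢ B` of the variety `X` over `k` of dimension `n`
with function field `L`: if `E` is the function field of `B`, algebraically closed in `L`, so that `L`
over `E` is the function field of the generic fibre `F`, then `κ(B) ≥ p` and `κ(F) ≥ q` imply
`κ(X) ≥ p + q`. -/
def Iitaka (k L : Type) [Field k] [Field L] [Algebra k L] (n : ℕ) : Prop :=
  ∀ (E : IntermediateField k L) (d f p q : ℕ), (∀ x : L, IsAlgebraic E x → x ∈ E) →
    Algebra.trdeg k E = d → Algebra.trdeg E L = f → KodairaGe k E d p → KodairaGe E L f q →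
      KodairaGe k L n (p + q)

/-- `K` is the function field of `Y × S`, where `E` and `S` are the function fields of the varieties
`Y` and `S` of dimensions `a ≥ 1` and `b`. -/
structure IsProduct {K : Type} [Field K] [Algebra ℂ K] (E S : IntermediateField ℂ K) (a b : ℕ) :
    Prop where
  pos : 1 ≤ a
  sup : E ⊔ S = ⊤
  dimE : Algebra.trdeg ℂ E = a
  dimS : Algebra.trdeg ℂ S = b
  dimK : Algebra.trdeg ℂ K = (a + b : ℕ)

/-- `K_Y - 2 A` is big, where the linear system `A` on `Y` (of dimension `a`, with function field `E`)
is spanned by the functions `c i`: for some `p ≥ 1` there are a `p`-canonical form `η ≠ 0` on `Y` and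
algebraically independent functions `g 1, ..., g a` such that the forms `c i ^ (2 p) u η`, for `u` in
`{1, g 1, ..., g a}`, are regular along all prime divisors over `Y`. -/
def BigTwist {E : Type} [Field E] [Algebra ℂ E] (a : ℕ) {ι : Type} (c : ι → E) : Prop :=
  ∃ p : ℕ, 1 ≤ p ∧ ∃ η : (Fin a → Derivation ℂ E E) → E, IsPluri p η ∧ (∃ D, η D ≠ 0) ∧
    ∃ g : Fin a → E, AlgebraicIndependent ℂ g ∧ ∀ P : Place ℂ E, Divisorial a P →
      ∀ (i : ι) (u : E), (u = 1 ∨ ∃ j, u = g j) → RegAt P (fun D => c i ^ (2 * p) * (u * η D))

/-- `K_V - (2 + 1 / M) A` is effective for some `M ≥ 1`, where the linear system `A` on `V` (of dimension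
`n`, with function field `K`) is spanned by the functions `a i`: there is an `M`-canonical form
`ω ≠ 0` such that the forms `a i ^ (2 M + 1) ω` are regular along all prime divisors over `V`. -/
def EffectiveTwist {K : Type} [Field K] [Algebra ℂ K] (n : ℕ) {ι : Type} (a : ι → K) : Prop :=
  ∃ M : ℕ, 1 ≤ M ∧ ∃ ω : (Fin n → Derivation ℂ K K) → K, IsPluri M ω ∧ (∃ D, ω D ≠ 0) ∧
    ∀ Q : Place ℂ K, Divisorial n Q → ∀ i, RegAt Q (fun D => a i ^ (2 * M + 1) * ω D)

/-- (1) Families of copies of `S`: let `Y × S ⇢ W` be dominant and generically finite, let the
functions `c i` on `Y` span the function field `K` of `Y × S` over the function field `L` of `W`, i.e.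
they impose independent conditions below a general point of `W` and the general `{y} × S` is birational to
its image, and let `K_Y - 2 A` be big. If Iitaka's inequality holds for the fibrations of `S` over the
function field of `Y` then it holds for the fibrations of `W`. -/
def Families : Prop :=
  ∀ (L K : Type) [Field L] [Field K] [Algebra ℂ L] [Algebra ℂ K] [Algebra L K]
    [IsScalarTower ℂ L K] [FiniteDimensional L K] [Algebra.EssFiniteType ℂ K]
    (E S : IntermediateField ℂ K) (a b : ℕ), IsProduct E S a b → ∀ (ι : Type) [Finite ι]
    (c : ι → E), Submodule.span L (Set.range fun i => (c i : K)) = ⊤ → BigTwist a c →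
    Iitaka E K b → Iitaka ℂ L (a + b)

/-- (2) Families over complete intersections: let `Y` be a variety in projective `(M + 1)`-space which is
cut out by equations of degree at most `D` and has the regular canonical forms `P(x) ω₀` for all forms
`P` of degree `m`, for example a smooth complete intersection
(`MP_e23cd6_ag.ProductTransfer.CompleteIntersections`). Let `Y × S ⇢ W` be generically finite
of degree less than `(N + 1) (k + 2 - N)`, and birational to its image on the general `{y} × S`
(`K = L(E)`), where `2 k < m`, `7 N + 4 ≤ k`, `(M + 1) N < k + M + 2`, `D + N ≤ k + 2`. If Iitaka's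
inequality holds for the fibrations of `S` over the function field of `Y` then it holds for the
fibrations of `W`. -/
def FamiliesOverCI : Prop :=
  ∀ (M n m D N k b : ℕ) (L K : Type) [Field L] [Field K] [Algebra ℂ L] [Algebra ℂ K]
    [Algebra L K] [IsScalarTower ℂ L K] [FiniteDimensional L K] [Algebra.EssFiniteType ℂ K]
    (E S : IntermediateField ℂ K) (x : Fin (M + 2) → E), IsProduct E S n b →
    LowDegree n m D x → 1 ≤ M → 2 * k < m → 7 * N + 4 ≤ k → (M + 1) * N < k + M + 2 →
    D + N ≤ k + 2 → IntermediateField.adjoin L (E : Set K) = ⊤ →
    Module.finrank L K < (N + 1) * (k + 2 - N) → Iitaka E K b → Iitaka ℂ L (n + b)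

/-- (3) Let `V ⇢ W` be dominant and generically finite, with function fields `K ⊇ L`, let the functions
`a i` on `V` span `K` over `L` (independent conditions on the general fibre), and let
`K_V - (2 + 1 / M) A` be effective. If Iitaka's inequality holds for the fibrations of `V` then it
holds for the fibrations of `W`. -/
def FiniteImages : Prop :=
  ∀ (L K : Type) [Field L] [Field K] [Algebra ℂ L] [Algebra ℂ K] [Algebra L K]
    [IsScalarTower ℂ L K] [FiniteDimensional L K] [Algebra.EssFiniteType ℂ K] (n : ℕ),
    Algebra.trdeg ℂ L = n → ∀ (ι : Type) [Finite ι] (a : ι → K),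
    Submodule.span L (Set.range a) = ⊤ → EffectiveTwist n a → Iitaka ℂ K n → Iitaka ℂ L n

/-- Iitaka's inequality for all fibrations of the varieties covered by a family of copies of a variety
`S`: (1) the general theorem, (2) families over complete intersections, (3) finite images. -/
theorem result : Families ∧ FamiliesOverCI ∧ FiniteImages := by
  refine ⟨?_, ?_, ?_⟩
  · intro L K _ _ _ _ _ _ _ _ E S a b h ι _ c hc hbig hI
    obtain ⟨p, hp1, η, hη, hη0, g, hg, hreg⟩ := hbig
    have dat : Pool.Agent.L0h17.KU.Dat L E S a b p η g c := ⟨h.dimE, h.dimS, h.dimK,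
      by rw [sup_comm]; exact h.sup, h.pos, hp1, hη, hη0, hg, hc,
      fun i P hP D hD => ⟨by
        have h1 := hreg P hP i 1 (Or.inl rfl) D hD
        simp only [one_mul] at h1
        exact h1, fun j => hreg P hP i _ (Or.inr ⟨j, rfl⟩) D hD⟩⟩
    exact Pool.Agent.L0h17.IT.prod_iit h.dimE h.dimS h.dimK (by rw [sup_comm]; exact h.sup) hI
      fun g hg => ((Pool.Agent.L0h17.KU.transfer dat).1 g).2 hg
  · intro M n m D N k b L K _ _ _ _ _ _ _ _ E S x h hx hM hkm hk hN hD hE hd hI
    obtain ⟨η, g, dat⟩ := Pool.Agent.L0h17.KU.ci_dat hx h.pos hM hk hN hD (by omega) hd hE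
      (by rw [sup_comm]; exact h.sup) h.dimS h.dimK
    exact Pool.Agent.L0h17.IT.prod_iit h.dimE h.dimS h.dimK (by rw [sup_comm]; exact h.sup) hI
      fun g hg => ((Pool.Agent.L0h17.KU.transfer dat).1 g).2 hg
  · intro L K _ _ _ _ _ _ _ _ n hn ι _ a ha heff hI
    have hessL : Algebra.EssFiniteType ℂ L := Pool.Agent.TH466.QG.ess_below (K := K)
    exact Pool.Agent.L0h17.IT.fin_iit hn ha heff hI

end Pool.Agent.Results.MP_f72953_ag.ImagesOfProducts
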