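import Pool.Agent.L0h18.EF.Prod

/-!
# Iitaka's inequality for the varieties dominated by the product of several varieties and a curve

Let `V = X 0 × ... × X (k - 1) × C`, where the `X i` are smooth projective varieties over `ℂ` of
dimensions `m i` and `C` is a smooth projective curve of any genus, and let `V ⇢ W` be a dominant
rational map of finite degree to a variety `W`. It need not be related to the product structure, and
it need not be the quotient by a group. Let `W_i` be the image of `V` in
`W × X 0 × ... × X (i - 1)` and `d i` the degree over `W_i` of the image of `V` in `W_i × X i`; for
example `d 0` is the number of different points of `X 0` below a general fibre of `V ⇢ W`, and the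
product of the `d i` is at most the degree of `V ⇢ W`. Suppose that the canonical forms of `X i`
separate `2 d i` general points for all `i`, for example that `X i` is a smooth complete intersection
of large degree (with a quadratic bound for `d i`, see the first part of the theorem), or a curve of
gonality greater than `2 d i`.

**Theorem.** Iitaka's inequality `κ(W) ≥ κ(F) + κ(B)` holds for all fibrations `W ⇢ B` with total space
`W` (`B` of any dimension), where `F` is the generic fibre. If moreover `κ(B) ≥ 0` and `K_F` is only
pseudo-effective then `κ(W) ≥ dim W - 1`.

The total spaces `W` have any dimension. They can be of general type, uniruled, or of Kodaira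
dimension `dim W - 1`, and no assumption is made on the fibration, on the base and on the fibre (no
minimal models, no abundance for `F`, no assumption on the variation or on the Albanese map of `B`).

## Proof

By the theory of helper145 for the varieties dominated by such products
(`Pool/Agent/N145/SX/MFin.lean`) either `W` is uniruled, or `κ(W) ≥ dim W - 1`; and if `W` is not of
general type then `W` is covered by rational or elliptic curves. Let `κ(B) ≥ 0` and `K_F` be
pseudo-effective. Then `W` is not uniruled (`Pool/Agent/R882/UB.lean`): a pluricanonical form of `B`
would be constant along the rational curves. So `κ(W) ≥ dim W - 1`, and all is clear if `W` is of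
general type.

Otherwise we have to show that `κ(F) + κ(B) ≤ dim W - 1`. This is the new part
(`Pool/Agent/L0h18/EF`), which holds for all varieties `W` covered by a family of rational or elliptic
curves `R_s` of dimension `dim W - 1`. (1) Let the curves be not contracted in `B`. Let `η` be a
regular pluricanonical form on `B`, pulled back to the total space of the family. It is contracted
with the vector fields of a frame, one of which is vertical and the others are lifts of vector fields
on the parameter space, chosen such that the determinant does not vanish. The value does not change if
multiples of the vertical vector field are added to the other vector fields, and so they can be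
adapted to each point of the generic curve `R_s`; this shows that the value is a regular
pluricanonical form on `R_s`. As `R_s` has genus at most one, two such forms are proportional. So the
ratios of the pluricanonical forms of `B` are constant along the images of the `R_s` in `B`, and
`κ(B) ≤ dim B - 1`. (2) If the curves are contracted in `B` then the same argument over the function
field of `B` shows that the ratios of the pluricanonical forms of `F` are constant along the curves in
`F`, and `κ(F) ≤ dim F - 1`.

`K` and `L` are the function fields of `V` and `W`, `E` is the function field of `B`, and `L` over `E`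
is the function field of the generic fibre `F`, of dimension `f`; `d = dim B`. `KappaGe` and
`IsPseudoEffective` are in `Pool/Agent/R882/HTF.lean`.

The theory of the varieties dominated by products is due to helper145 and others
(`MP_97d78d_ag.ProductsOfVarieties`), the separation of points on complete intersections to helper162
and others.
-/

set_option autoImplicit false
set_option linter.overlappingInstances false
set_option maxHeartbeats 4000000
set_option synthInstance.maxHeartbeats 400000

open FF Module Pool.Agent Pool.Agent.W602.GT Pool.Agent.N162.BC Pool.Agent.N162.GP
open Pool.Agent.R882.HTF (KappaGe IsPseudoEffective)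
open Pool.Agent.L0h18.EF (SeparatesPoints)
open Pool.Agent.N162.GQ (deg)

namespace Pool.Agent.Results.MP_f72953_ag.ProductsTimesCurve

/-- **Iitaka's inequality for the varieties dominated by products.** (1) Let `E` be the function
field of a smooth complete intersection `X` of dimension `n ≥ 1` of hypersurfaces of the degrees
`d i ≤ D` in projective `(M + 1)`-space, `K_X = O(m)`. If `m ≥ 7 N + 4`, `(M + 1) N < m + M + 2`,
`D + N ≤ m + 2` and `r < (N + 1) (m + 2 - N)` then the canonical forms separate `r` general points.
(2) They separate `r` general points on a curve of gonality greater than `r`. (3) Let `K` be the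
function field of the product `V` of the varieties with the function fields `F i`, `i < k`, of
dimension `m i`, and of the curve with the function field `F k`, i.e. `K` is the compositum and its
transcendence degree is `∑ m i + 1`. Let `L ⊆ K` be the function field of a variety `W` such that the
extension is finite. Suppose that for all `i < k` the canonical forms of the `i`-th variety separate
`2 d i` general points, where `d i` is the degree over `W_i` of the image of `V` in the product of
`W_i` and this variety. Let `E ⊆ L` be the function field of a variety `B` of dimension `d`, and let
the generic fibre `F` of `W ⇢ B`, with the function field `L` over `E`, have dimension `f`. If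
`κ(B) ≥ 0` and `K_F` is pseudo-effective then `κ(W) ≥ dim W - 1`; and `κ(W) ≥ κ(B) + κ(F)`. -/
theorem result :
    (∀ (M n q m D N r : ℕ) (E : Type) [Field E] [Algebra ℂ E]
      (F : Fin q → MvPolynomial (Fin (M + 2)) ℂ) (d : Fin q → ℕ) (x : Fin (M + 2) → E),
      SmoothCI F d x → 1 ≤ n → Algebra.trdeg ℂ E = n → n + q = M + 1 → m + M + 2 = ∑ i, d i →
      (∀ i, d i ≤ D) → 1 ≤ D → 1 ≤ M → 7 * N + 4 ≤ m → (M + 1) * N < m + M + 2 →
      D + N ≤ m + 2 → r < (N + 1) * (m + 2 - N) → SeparatesPoints E n r) ∧
    (∀ (E : Type) [Field E] [Algebra ℂ E] [IsFF ℂ E] (r : ℕ),
      (∀ y : E, Transcendental ℂ y → r < finrank (IntermediateField.adjoin ℂ {y}) E) →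
      SeparatesPoints E 1 r) ∧
    ∀ (k : ℕ) (m : Fin k → ℕ) (K : Type) [Field K] [Algebra ℂ K] [Algebra.EssFiniteType ℂ K]
      (F : Fin (k + 1) → IntermediateField ℂ K) [∀ i, Algebra.EssFiniteType ℂ (F i)]
      [IsFF ℂ (F (Fin.last k))], (⨆ i, F i) = ⊤ →
      (∀ i : Fin k, Algebra.trdeg ℂ (F i.castSucc) = m i) →
      Algebra.trdeg ℂ K = (∑ i, m i + 1 : ℕ) →
      ∀ (L : Type) [Field L] [Algebra ℂ L] [Algebra L K] [IsScalarTower ℂ L K]
        [FiniteDimensional L K],
        (∀ i : Fin k, SeparatesPoints (F i.castSucc) (m i) (2 * deg F L i.castSucc)) →
        ∀ (E : IntermediateField ℂ L) [Algebra.EssFiniteType ℂ E] (d f : ℕ),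
          Algebra.trdeg ℂ E = d → Algebra.trdeg E L = f →
          (KappaGe ℂ E d 0 → IsPseudoEffective E L f →
            KappaGe ℂ L (∑ i, m i + 1) (∑ i, m i)) ∧
          ∀ p q : ℕ, KappaGe ℂ E d p → KappaGe E L f q →
            KappaGe ℂ L (∑ i, m i + 1) (p + q) := by
  refine ⟨?_, ?_, ?_⟩
  · intro M n q m D N r E _ _ F d x h hn hE hq hm hD hD1 hM h1 h2 h3 h4
    exact Pool.Agent.L0h18.EF.separates_of_factor (g := (N + 1) * (m + 2 - N))
      (Or.inl ⟨M, m, D, N, x, lowDegree_of_smoothCI fCIC fCIA h hn hE hq hm hD hD1, hM, h1, h2, h3,
        le_rfl⟩) h4
  · intro E _ _ _ r h
    exact Pool.Agent.L0h18.EF.separates_of_factor (g := r + 1)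
      (Or.inr ⟨rfl, inferInstance, fun y hy => h y hy⟩) (Nat.lt_succ_self r)
  · intro k m K _ _ _ F _ _ hF hm hK L _ _ _ _ _ hX E _ d f hd hf
    exact Pool.Agent.L0h18.EF.iitaka_prod m F hF hm hK L hX E hd hf

end Pool.Agent.Results.MP_f72953_ag.ProductsTimesCurve
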