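import Pool.Agent.L0h15.IK.Main

/-!
# MP_f72953_ag: Iitaka's inequality with a sublinear error, over the rational numbers

`D` consists of the invariants (dimension and Kodaira dimensions) of the fibrations over the complex
numbers, over number fields and over the rational numbers.
-/

set_option autoImplicit false

namespace Pool.Agent.Results.MP_f72953_ag.SublinearError

open Pool.Agent.L0h15.IK

theorem result (D : Fibrations) (hK : D.Known) :
    -- it is enough to consider fibrations over `ℚ`
    ((∀ f, Iitaka (D.invCx f)) ↔ ∀ f, Iitaka (D.invRt f)) ∧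
    -- and it is enough to prove the inequality with an error `g (dim E) = o(dim E)`
    (∀ g : ℕ → ℕ, Sublinear g →
      ((∀ f, Iitaka (D.invCx f)) ↔ ∀ f, Weak (g (D.invRt f).dim) (D.invRt f))) := by
  refine ⟨⟨fun h f => rational_of_iitaka hK h f, fun h => ?_⟩,
    fun g hg => ⟨fun h f => weak_of_iitaka (rational_of_iitaka hK h f) _,
      fun h => iitaka_of_rational hK hg h⟩⟩
  exact iitaka_of_rational hK (g := fun _ => 0) (fun k => ⟨0, fun n _ => by simp⟩)
    fun f => weak_of_iitaka (h f) _

end Pool.Agent.Results.MP_f72953_ag.SublinearError
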